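import Mathlib
import Pool.Agent.Helper65.BL13

/-!
# A function in the Hardy spaces of Dirichlet series whose zeros are not a Blaschke sequence

There is a function `F`, analytic on `Re s > 1/2` and not identically zero, which belongs to `ℋ^p` for
every `0 < p ≤ 1/2` and whose zeros `ρ` in `Re s > 1/2`, counted with multiplicity, satisfy
`∑ (Re ρ - 1/2) / (1 + |ρ|²) = ∞`.
-/

set_option autoImplicit false

namespace Pool.Agent.Results.MP_7f5f24_an.NonBlaschke

open Filter Topology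

/-- The Dirichlet polynomial `∑_{1 ≤ n ≤ N} c_n n^{-s}`. -/
noncomputable def dirichletPoly (N : ℕ) (c : ℕ → ℂ) (s : ℂ) : ℂ :=
  ∑ n ∈ Finset.Icc 1 N, c n * (n : ℂ) ^ (-s)

/-- `q` is the quasi-norm `(lim_{T → ∞} (1/2T) ∫_{-T}^{T} |P(it)|^p dt)^{1/p}` of the Dirichlet
polynomial `P`; in particular the limit exists. -/
def HasNorm (p : ℝ) (P : ℂ → ℂ) (q : ℝ) : Prop :=
  0 ≤ q ∧ Tendsto (fun T : ℝ => 1 / (2 * T) * ∫ t in (-T)..T, ‖P ((t : ℂ) * Complex.I)‖ ^ p)
    atTop (𝓝 (q ^ p))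

/-- The function `F` on `Re s > 1/2` belongs to `ℋ^p`: it is the limit of a sequence of Dirichlet
polynomials which is a Cauchy sequence for the quasi-norm of `ℋ^p`. -/
def MemH (p : ℝ) (F : ℂ → ℂ) : Prop :=
  ∃ (N : ℕ → ℕ) (c : ℕ → ℕ → ℂ),
    (∀ ε : ℝ, 0 < ε → ∃ K : ℕ, ∀ j ≥ K, ∀ k ≥ K, ∃ q : ℝ, q < ε ∧
      HasNorm p (fun s => dirichletPoly (N j) (c j) s - dirichletPoly (N k) (c k) s) q) ∧
    ∀ s : ℂ, 1 / 2 < s.re → Tendsto (fun k => dirichletPoly (N k) (c k) s) atTop (𝓝 (F s))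

/-- The sum of `(Re ρ - 1/2) / (1 + |ρ|²)` over the zeros `ρ` of `F` in `Re s > 1/2`, each counted
with its multiplicity, as an element of `[0, ∞]`. -/
noncomputable def blaschkeSum (F : ℂ → ℂ) : ENNReal :=
  ∑' ρ : {s : ℂ // 1 / 2 < s.re ∧ F s = 0},
    (analyticOrderNatAt F ρ : ENNReal) * ENNReal.ofReal ((ρ.1.re - 1 / 2) / (1 + ‖ρ.1‖ ^ 2))


open MeasureTheory Pool.Agent.Helper65.BL

/-- the primes up to `N` -/
abbrev PrimesTo (N : ℕ) : Type := {p : ℕ // p ∈ (Finset.range (N + 1)).filter Nat.Prime}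

variable {ι : Type} [Fintype ι]

/-- equidistribution for real continuous functions -/
theorem equidist_real {q : ι → ℕ} (hq : ∀ i, (q i).Prime) (hinj : Function.Injective q)
    {Φ : (ι → UnitAddCircle) → ℝ} (hΦ : Continuous Φ) :
    Tendsto (fun T : ℝ => 1 / (2 * T) * ∫ t in (-T)..T, Φ (flow q t)) atTop
      (𝓝 (∫ y, Φ y ∂(PT ι))) := by
  have hc : Continuous (fun y => ((Φ y : ℝ) : ℂ)) := Complex.continuous_ofReal.comp hΦ
  have h1 := equidist hq hinj (⟨_, hc⟩ : C(UnitAddTorus ι, ℂ))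
  simp only [ContinuousMap.coe_mk] at h1
  have h2 : (∫ y, ((Φ y : ℝ) : ℂ) ∂(PT ι)) = ((∫ y, Φ y ∂(PT ι) : ℝ) : ℂ) :=
    integral_complex_ofReal
  rw [h2] at h1
  have h3 := (Complex.continuous_re.tendsto _).comp h1
  rw [Complex.ofReal_re] at h3
  refine h3.congr ?_
  intro T
  simp only [Function.comp, meanT]
  have h4 : ∫ t in (-T)..T, ((Φ (flow q t) : ℝ) : ℂ) =
      ((∫ t in (-T)..T, Φ (flow q t) : ℝ) : ℂ) := intervalIntegral.integral_ofReal
  rw [h4, Complex.real_smul, ← Complex.ofReal_mul, Complex.ofReal_re]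

/-- every Dirichlet polynomial is a continuous function on a finite dimensional torus along the
flow -/
theorem exists_torus {P : ℂ → ℂ} (hP : IsDP P) :
    ∃ (N : ℕ) (Ψ : (PrimesTo N → UnitAddCircle) → ℂ),
      Continuous Ψ ∧ ∀ t : ℝ, P ((t : ℂ) * Complex.I) = Ψ (flow (fun i => i.1) t) := by
  obtain ⟨N, c, hc⟩ := hP
  refine ⟨N, fun y => ∑ n ∈ Finset.Icc 1 N, c n *
    UnitAddTorus.mFourier (fun i => ((n.factorization i.1 : ℕ) : ℤ)) y, ?_, ?_⟩
  · apply continuous_finsetSum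
    intro n _
    exact continuous_const.mul (ContinuousMap.continuous _)
  · intro t
    rw [hc]
    apply Finset.sum_congr rfl
    intro n hn
    rw [Finset.mem_Icc] at hn
    congr 1
    rw [mFourier_flow]
    have hn0 : n ≠ 0 := by omega
    have hnC : (n : ℂ) ≠ 0 := by exact_mod_cast hn0
    rw [Complex.cpow_def_of_ne_zero hnC]
    congr 1
    have hlog : ∑ i : PrimesTo N,
        (((n.factorization i.1 : ℕ) : ℤ) : ℝ) * Real.log (i.1 : ℕ) = Real.log n := by
      have e1 : ∑ i : PrimesTo N,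
          (((n.factorization i.1 : ℕ) : ℤ) : ℝ) * Real.log (i.1 : ℕ) =
          ∑ p ∈ (Finset.range (N + 1)).filter Nat.Prime,
            (n.factorization p : ℝ) * Real.log p := by
        rw [← Finset.sum_coe_sort ((Finset.range (N + 1)).filter Nat.Prime)
          (fun p => (n.factorization p : ℝ) * Real.log p)]
        apply Finset.sum_congr rfl
        intro i _
        push_cast
        rfl
      rw [e1]
      have hsub : n.factorization.support ⊆ (Finset.range (N + 1)).filter Nat.Prime := by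
        intro p hp
        rw [Nat.support_factorization, Nat.mem_primeFactors] at hp
        rw [Finset.mem_filter, Finset.mem_range]
        exact ⟨by have := Nat.le_of_dvd (by omega) hp.2.1; omega, hp.1⟩
      rw [← Finset.sum_subset hsub]
      · conv_rhs => rw [← Nat.prod_factorization_pow_eq_self hn0]
        rw [Finsupp.prod]
        push_cast
        rw [Real.log_prod]
        · apply Finset.sum_congr rfl
          intro p _
          rw [Real.log_pow]
        · intro p hp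
          rw [Nat.support_factorization, Nat.mem_primeFactors] at hp
          have := hp.1.pos
          positivity
      · intro p _ hp
        rw [Finsupp.notMem_support_iff.1 hp]
        simp
    rw [hlog, Complex.natCast_log.symm]
    push_cast
    ring

theorem hasNorm_of_torus {p : ℝ} (hp : 0 < p) {P : ℂ → ℂ} {q : ι → ℕ} (hq : ∀ i, (q i).Prime)
    (hinj : Function.Injective q) {Ψ : (ι → UnitAddCircle) → ℂ} (hΨ : Continuous Ψ)
    (h : ∀ t : ℝ, P ((t : ℂ) * Complex.I) = Ψ (flow q t)) :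
    Tendsto (fun T : ℝ => 1 / (2 * T) * ∫ t in (-T)..T, ‖P ((t : ℂ) * Complex.I)‖ ^ p)
      atTop (𝓝 (∫ y, ‖Ψ y‖ ^ p ∂(PT ι))) := by
  have hc : Continuous (fun y => ‖Ψ y‖ ^ p) :=
    Continuous.rpow_const hΨ.norm fun y => Or.inr hp.le
  have h1 := equidist_real hq hinj hc
  simp only [h]
  exact h1

/-- the quasi-norms for `p ≤ 1/2` are controlled by the one for `p = 1/2` -/
theorem hasNorm_of_meanLe {P : ℂ → ℂ} (hP : IsDP P) {B : ℝ} (hB : 0 < B) (hM : MeanLe P B)
    {p : ℝ} (hp : 0 < p) (hp2 : p ≤ 1 / 2) : ∃ q : ℝ, q ≤ B ^ 2 ∧ HasNorm p P q := by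
  obtain ⟨N, Ψ, hΨ, hflow⟩ := exists_torus hP
  have hq : ∀ i : PrimesTo N, (i.1).Prime :=
    fun i => (Finset.mem_filter.1 i.2).2
  have hinj : Function.Injective
      (fun i : PrimesTo N => i.1) :=
    Subtype.val_injective
  have h1 := hasNorm_of_torus hp hq hinj hΨ hflow
  have h2 := hasNorm_of_torus (p := 1 / 2) (by norm_num) hq hinj hΨ hflow
  set μ := PT (PrimesTo N) with hμ
  -- the mean of the square root
  have h3 : ∫ y, ‖Ψ y‖ ^ (1 / 2 : ℝ) ∂μ ≤ B := by
    apply le_of_forall_pos_le_add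
    intro ε hε
    obtain ⟨T₀, -, hT⟩ := hM ε hε
    apply le_of_tendsto h2
    filter_upwards [eventually_ge_atTop T₀] with T hTT
    exact (hT T hTT).le
  have hint : ∀ {r : ℝ}, 0 < r → Integrable (fun y => ‖Ψ y‖ ^ r) μ := by
    intro r hr
    have hc : Continuous (fun y => ‖Ψ y‖ ^ r) :=
      Continuous.rpow_const hΨ.norm fun y => Or.inr hr.le
    exact hc.integrable_of_hasCompactSupport (HasCompactSupport.of_compactSpace _)
  have h0 : 0 ≤ ∫ y, ‖Ψ y‖ ^ p ∂μ := integral_nonneg fun y => Real.rpow_nonneg (norm_nonneg _) _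
  have hθ : 0 < 2 * p := by linarith
  have hθ1 : 0 ≤ 1 - 2 * p := by linarith
  have hpt : ∀ y, ‖Ψ y‖ ^ p ≤ B ^ (2 * p) * (2 * p * (‖Ψ y‖ ^ (1 / 2 : ℝ) / B) + (1 - 2 * p)) := by
    intro y
    set u := ‖Ψ y‖ ^ (1 / 2 : ℝ) with hu
    have hu0 : 0 ≤ u := Real.rpow_nonneg (norm_nonneg _) _
    have hup : ‖Ψ y‖ ^ p = u ^ (2 * p) := by
      rw [hu, ← Real.rpow_mul (norm_nonneg _)]
      congr 1
      ring
    have h4 := Real.geom_mean_le_arith_mean2_weighted hθ.le hθ1 (div_nonneg hu0 hB.le)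
      (zero_le_one) (by ring : 2 * p + (1 - 2 * p) = 1)
    rw [Real.one_rpow, mul_one, mul_one, Real.div_rpow hu0 hB.le] at h4
    have hBp : 0 < B ^ (2 * p) := Real.rpow_pos_of_pos hB _
    rw [hup]
    rw [div_le_iff₀ hBp] at h4
    linarith
  have h5 : ∫ y, ‖Ψ y‖ ^ p ∂μ ≤ B ^ (2 * p) := by
    have hI : Integrable (fun y => B ^ (2 * p) *
        (2 * p * (‖Ψ y‖ ^ (1 / 2 : ℝ) / B) + (1 - 2 * p))) μ := by
      apply Integrable.const_mul
      apply Integrable.add
      · apply Integrable.const_mul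
        exact (hint (by norm_num)).div_const _
      · exact integrable_const _
    refine le_trans (integral_mono (hint hp) hI hpt) ?_
    rw [integral_const_mul, integral_add, integral_const_mul, integral_div, integral_const]
    · simp only [probReal_univ, smul_eq_mul, one_mul]
      have hBp : 0 < B ^ (2 * p) := Real.rpow_pos_of_pos hB _
      have h6 : (∫ y, ‖Ψ y‖ ^ (1 / 2 : ℝ) ∂μ) / B ≤ 1 := (div_le_one hB).2 h3
      have h7 : 2 * p * ((∫ y, ‖Ψ y‖ ^ (1 / 2 : ℝ) ∂μ) / B) ≤ 2 * p * 1 :=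
        mul_le_mul_of_nonneg_left h6 hθ.le
      calc B ^ (2 * p) * (2 * p * ((∫ y, ‖Ψ y‖ ^ (1 / 2 : ℝ) ∂μ) / B) + (1 - 2 * p))
          ≤ B ^ (2 * p) * 1 := mul_le_mul_of_nonneg_left (by linarith) hBp.le
        _ = _ := mul_one _
    · apply Integrable.const_mul
      exact (hint (by norm_num)).div_const _
    · exact integrable_const _
  refine ⟨(∫ y, ‖Ψ y‖ ^ p ∂μ) ^ (1 / p), ?_, Real.rpow_nonneg h0 _, ?_⟩
  · calc (∫ y, ‖Ψ y‖ ^ p ∂μ) ^ (1 / p) ≤ (B ^ (2 * p)) ^ (1 / p) :=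
        Real.rpow_le_rpow h0 h5 (by positivity)
      _ = B ^ (2 : ℝ) := by
        rw [← Real.rpow_mul hB.le]
        congr 1
        field_simp
      _ = B ^ 2 := by norm_cast
  · rw [← Real.rpow_mul h0, one_div, inv_mul_cancel₀ hp.ne', Real.rpow_one]
    exact h1

/-- unbounded finite sums give an infinite sum -/
theorem blaschkeSum_eq_top {F : ℂ → ℂ}
    (h : ¬ ∃ C : ℝ, ∀ S : Finset ℂ, (∀ ρ ∈ S, 1 / 2 < ρ.re ∧ F ρ = 0) →
      ∑ ρ ∈ S, (analyticOrderNatAt F ρ : ℝ) * (ρ.re - 1 / 2) / (1 + ‖ρ‖ ^ 2) ≤ C) :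
    blaschkeSum F = ⊤ := by
  by_contra hne
  apply h
  refine ⟨(blaschkeSum F).toReal, fun S hS => ?_⟩
  have hinj : Function.Injective
      (fun x : {x // x ∈ S} => (⟨x.1, hS x.1 x.2⟩ : {s : ℂ // 1 / 2 < s.re ∧ F s = 0})) := by
    intro x y hxy
    simp only [Subtype.mk.injEq] at hxy
    exact Subtype.ext hxy
  have h1 := ENNReal.sum_le_tsum (f := fun ρ : {s : ℂ // 1 / 2 < s.re ∧ F s = 0} =>
    (analyticOrderNatAt F ρ : ENNReal) * ENNReal.ofReal ((ρ.1.re - 1 / 2) / (1 + ‖ρ.1‖ ^ 2)))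
    (S.attach.map ⟨_, hinj⟩)
  rw [Finset.sum_map] at h1
  simp only [Function.Embedding.coeFn_mk] at h1
  have h2 : ∑ ρ ∈ S, (analyticOrderNatAt F ρ : ℝ) * (ρ.re - 1 / 2) / (1 + ‖ρ‖ ^ 2) =
      (∑ x ∈ S.attach, (analyticOrderNatAt F x.1 : ENNReal) *
        ENNReal.ofReal ((x.1.re - 1 / 2) / (1 + ‖x.1‖ ^ 2))).toReal := by
    rw [ENNReal.toReal_sum]
    · rw [← Finset.sum_attach]
      apply Finset.sum_congr rfl
      intro x _
      rw [ENNReal.toReal_mul, ENNReal.toReal_natCast, ENNReal.toReal_ofReal]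
      · rw [mul_div_assoc]
      · have := (hS x.1 x.2).1
        apply div_nonneg (by linarith) (by positivity)
    · intro x _
      exact ENNReal.mul_ne_top (ENNReal.natCast_ne_top _) ENNReal.ofReal_ne_top
  rw [h2]
  exact ENNReal.toReal_mono hne h1

/-- There is a single function `F`, analytic on `Re s > 1/2` and not identically zero there, which
belongs to `ℋ^p` for every `0 < p ≤ 1/2`, and whose zeros in `Re s > 1/2` violate the Blaschke
condition. -/
theorem result : ∃ F : ℂ → ℂ, (∀ p : ℝ, 0 < p → p ≤ 1 / 2 → MemH p F) ∧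
      (∀ s : ℂ, 1 / 2 < s.re → AnalyticAt ℂ F s) ∧ (∃ s : ℂ, 1 / 2 < s.re ∧ F s ≠ 0) ∧
      blaschkeSum F = ⊤ := by
  have hr0 : ∀ k, 0 < rr (k + 1) := fun k => rr_pos _
  have hr1 : ∀ k, rr (k + 1) < 1 := fun k => rr_lt _
  obtain ⟨a, ha, hbad⟩ := exists_bad_value FF_analytic FF_base hr0 hr1 FF_lim
  have hdp : ∀ k, ∃ (N : ℕ) (c : ℕ → ℂ), ∀ s : ℂ, PP k s - a =
      ∑ n ∈ Finset.Icc 1 N, c n * (n : ℂ) ^ (-s) := fun k =>
    (PP_isDP k).sub (IsDP.const a)
  choose N c hNc using hdp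
  refine ⟨fun s => FF s - a, ?_, ?_, ?_, blaschkeSum_eq_top hbad⟩
  · intro p hp hp2
    refine ⟨N, c, ?_, ?_⟩
    · intro ε hε
      obtain ⟨K, hK⟩ := exists_pow_lt_of_lt_one hε (by norm_num : (1 / 4 : ℝ) < 1)
      refine ⟨K, fun j hj k hk => ?_⟩
      have h1 := PP_cauchy hj hk
      obtain ⟨q, hq1, hq2⟩ := hasNorm_of_meanLe ((PP_isDP j).sub (PP_isDP k))
        (by positivity : (0 : ℝ) < (1 / 2) ^ K) h1 hp hp2
      refine ⟨q, lt_of_le_of_lt hq1 ?_, ?_⟩
      · rw [← pow_mul, mul_comm K 2, pow_mul]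
        norm_num at hK ⊢
        exact hK
      · have e : (fun s => dirichletPoly (N j) (c j) s - dirichletPoly (N k) (c k) s) =
            fun s => PP j s - PP k s := by
          funext s
          unfold dirichletPoly
          rw [← hNc, ← hNc]
          ring
        rw [e]
        exact hq2
    · intro s hs
      have e : (fun k => dirichletPoly (N k) (c k) s) = fun k => PP k s - a := by
        funext k
        unfold dirichletPoly
        rw [← hNc]
      rw [e]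
      exact (PP_tendsto hs).sub_const a
  · intro s hs
    exact (FF_analytic s hs).sub analyticAt_const
  · refine ⟨3 / 2, by norm_num, fun h => ?_⟩
    have h1 : FF (3 / 2) = a := sub_eq_zero.mp h
    have h2 := FF_base
    rw [h1, ha] at h2
    exact lt_irrefl _ h2

end Pool.Agent.Results.MP_7f5f24_an.NonBlaschke
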